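import Pool.Agent.Helper95.CU.Val

/-!
# Project CU: from a decided filter name to the value of the sentence
-/

set_option autoImplicit false

namespace Pool.Agent.Helper95.CU

open Pool.Agent.Helper33.HM

universe u

section

variable {B : Type u} [CompleteBooleanAlgebra B] {Φ : (ℕ → B) → B}

/-- the value of a statement `b ⊓ X ≤ Y` transfers to the filter -/
theorem h74_lin0 (h : BFil Φ) {b : B} {X Y : ℕ → B} (hXY : ∀ n, b ⊓ X n ≤ Y n) :
    b ⊓ Φ X ≤ Φ Y :=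
  h.lin b X Y 0 fun n _ => hXY n

/-- eventually true names belong to the filter -/
theorem h74_eventually (h : BFil Φ) {X : ℕ → B} (m : ℕ) (hX : ∀ n, m ≤ n → X n = ⊤) :
    Φ X = ⊤ := by
  have h1 := h.lin ⊤ ⊤ X m fun n hn => by rw [hX n hn]; exact le_top
  rw [h.top, top_inf_eq] at h1
  exact top_unique h1

theorem h74_isU (h : BFil Φ) : IsU Φ := by
  intro x y
  refine h74_lin0 h fun n => ?_
  calc (⨅ n, iffV (x n) (y n)) ⊓ x n ≤ (x n ⇨ y n) ⊓ x n :=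
        inf_le_inf_right _ ((iInf_le _ n).trans inf_le_left)
    _ ≤ y n := by rw [himp_inf_self]; exact inf_le_left

theorem h74_ultraV (h : BFil Φ) (hd : ∀ X, Φ X ⊔ Φ Xᶜ = ⊤) : ultraV Φ = ⊤ := by
  have h1 : (Φ ⊥)ᶜ = ⊤ := by rw [h.bot, compl_bot]
  have h2 : (⨅ m : ℕ, Φ (fun n => if n = m then ⊥ else ⊤)) = ⊤ := by
    refine top_unique (le_iInf fun m => top_le_iff.2 ?_)
    refine h74_eventually h (m + 1) fun n hn => ?_
    rw [if_neg (by omega)]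
  have h3 : (⨅ x : ℕ → B, ⨅ y : ℕ → B, (Φ x ⊓ ⨅ n, x n ⇨ y n) ⇨ Φ y) = ⊤ := by
    refine top_unique (le_iInf fun x => le_iInf fun y => ?_)
    rw [le_himp_iff, top_inf_eq, inf_comm]
    refine h74_lin0 h fun n => ?_
    calc (⨅ n, x n ⇨ y n) ⊓ x n ≤ (x n ⇨ y n) ⊓ x n := inf_le_inf_right _ (iInf_le _ n)
      _ ≤ y n := by rw [himp_inf_self]; exact inf_le_left
  have h4 : (⨅ x : ℕ → B, ⨅ y : ℕ → B, (Φ x ⊓ Φ y) ⇨ Φ (x ⊓ y)) = ⊤ := by
    refine top_unique (le_iInf fun x => le_iInf fun y => ?_)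
    rw [le_himp_iff, top_inf_eq]
    exact h.inf x y
  have h5 : (⨅ x : ℕ → B, Φ x ⊔ Φ xᶜ) = ⊤ :=
    top_unique (le_iInf fun x => (hd x).ge)
  rw [ultraV, h1, h2, h3, h4, h5]
  simp only [inf_top_eq]

/-- A decided name of a filter with no long well-ordered families gives the value `⊤`. -/
theorem h74_val_top (h : BFil Φ) (hd : ∀ X, Φ X ⊔ Φ Xᶜ = ⊤)
    (hc : ∀ E : (ℕ → ℕ → B) → B, IsFam E → ∀ F : (ℕ → ℕ → B) → (ℕ → ℕ → B), IsMap F →
      linV Φ E ⊓ wfV Φ E ⊓ ontoV E F = ⊥) : Val B = ⊤ := by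
  refine top_unique ?_
  rw [Val]
  refine le_iSup₂_of_le Φ (h74_isU h) ?_
  rw [h74_ultraV h hd, top_inf_eq]
  refine le_iInf fun E => le_iInf fun hE => le_iInf fun F => le_iInf fun hF => ?_
  rw [hc E hE F hF, compl_bot]

end

end Pool.Agent.Helper95.CU
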